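import Mathlib
import Pool.Agent.H120R2.CliqueDefs
import Pool.Agent.H15T.Numeric

/-!
# The rescaled Turán densities `t_*(r)` grow at most logarithmically
-/

open Finset Filter

namespace Pool.Agent.Results.MP_ea5d3c_co.LogBound

/-- `F` is the edge set of an `r`-graph on the `n` vertices `Fin n` whose independence number is
less than `k`: all members of `F` have `r` elements and every `k`-set of vertices contains a
member of `F`. -/
def IsTuran (n k r : ℕ) (F : Finset (Finset (Fin n))) : Prop :=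
  (∀ X ∈ F, X.card = r) ∧ ∀ Y : Finset (Fin n), Y.card = k → ∃ X ∈ F, X ⊆ Y

/-- `T(n,k,r)`: the least number of edges of an `r`-graph on `n` vertices with independence
number less than `k`. -/
noncomputable def T (n k r : ℕ) : ℕ :=
  sInf {e : ℕ | ∃ F : Finset (Finset (Fin n)), IsTuran n k r F ∧ F.card = e}

/-- The Turán density `t(k,r) = lim T(n,k,r) / C(n,r)`. -/
noncomputable def t (k r : ℕ) : ℝ :=
  limUnder atTop (fun n : ℕ => (T n k r : ℝ) / (n.choose r : ℝ))

/-- The rescaled Turán density `t_*(k,r) = (k-1)^(r-1) / r! * t(k,r)`. -/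
noncomputable def tStarK (k r : ℕ) : ℝ :=
  ((k : ℝ) - 1) ^ (r - 1) / (r.factorial : ℝ) * t k r

/-- `t_*(r) = inf_k t_*(k,r)`, the infimum over all integers `k > r`. -/
noncomputable def tStar (r : ℕ) : ℝ := ⨅ k : {k : ℕ // r < k}, tStarK k r

/-- for `k ≥ r`, `T(n,k,r) = C(n,r) - ex(n, K_k^r)` -/
theorem T_eq (n k r : ℕ) (hk : r ≤ k) :
    (T n k r : ℝ) = (n.choose r : ℝ) - (Pool.Agent.H120R2.Clique.ex n r k : ℝ) := by
  classical
  have hne : {e : ℕ | ∃ F : Finset (Finset (Fin n)), IsTuran n k r F ∧ F.card = e}.Nonempty := by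
    refine ⟨_, powersetCard r univ, ⟨fun X hX => (mem_powersetCard.mp hX).2, fun Y hY => ?_⟩, rfl⟩
    obtain ⟨X, hX1, hX2⟩ := Finset.exists_subset_card_eq (s := Y) (n := r) (by omega)
    exact ⟨X, mem_powersetCard.mpr ⟨subset_univ _, hX2⟩, hX1⟩
  obtain ⟨F, hF, hFe⟩ := Nat.sInf_mem hne
  have hFT : F.card = T n k r := hFe
  have h1 : n.choose r ≤ Pool.Agent.H120R2.Clique.ex n r k + T n k r := by
    rw [← hFT]
    apply Pool.Agent.H120R2.Clique.ex_ge_of_cover
    intro A hA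
    obtain ⟨X, hX, hXA⟩ := hF.2 A hA
    exact ⟨X, hX, hF.1 X hX, hXA⟩
  have h2 : T n k r + Pool.Agent.H120R2.Clique.ex n r k ≤ n.choose r := by
    have hnon : ((((univ : Finset (Fin n)).powersetCard r).powerset).filter
        (fun G => ¬ Pool.Agent.H120R2.Clique.HasClique G r k)).Nonempty := by
      refine ⟨∅, ?_⟩
      rw [mem_filter]
      refine ⟨by simp, ?_⟩
      rintro ⟨A, hA, hA2⟩
      have : (powersetCard r A).card = 0 := by
        rw [Finset.card_eq_zero]
        exact Finset.subset_empty.mp hA2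
      rw [card_powersetCard, hA] at this
      have := Nat.choose_pos hk
      omega
    obtain ⟨G, hG, he⟩ := Finset.exists_mem_eq_sup _ hnon Finset.card
    rw [mem_filter, mem_powerset] at hG
    have hGe : G.card = Pool.Agent.H120R2.Clique.ex n r k := by
      unfold Pool.Agent.H120R2.Clique.ex
      exact he.symm
    have h3 : T n k r ≤ ((powersetCard r (univ : Finset (Fin n))) \ G).card := by
      apply Nat.sInf_le
      refine ⟨_, ⟨fun X hX => (mem_powersetCard.mp (mem_sdiff.mp hX).1).2, fun Y hY => ?_⟩, rfl⟩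
      by_contra hcon
      push Not at hcon
      apply hG.2
      refine ⟨Y, hY, fun X hX => ?_⟩
      rw [mem_powersetCard] at hX
      by_contra hXG
      exact hcon X (mem_sdiff.mpr ⟨mem_powersetCard.mpr ⟨subset_univ _, hX.2⟩, hXG⟩) hX.1
    rw [card_sdiff_of_subset hG.1, card_powersetCard, card_univ, Fintype.card_fin] at h3
    have h4 : G.card ≤ n.choose r := by
      have := card_le_card hG.1
      rwa [card_powersetCard, card_univ, Fintype.card_fin] at this
    omega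
  have h3 : T n k r + Pool.Agent.H120R2.Clique.ex n r k = n.choose r := by omega
  have h4 : (T n k r : ℝ) + (Pool.Agent.H120R2.Clique.ex n r k : ℝ) = (n.choose r : ℝ) := by
    exact_mod_cast h3
  linarith

/-- the limit defining `t(k,r)` exists -/
theorem t_tendsto (k r : ℕ) (hk : r ≤ k) :
    Tendsto (fun n : ℕ => (T n k r : ℝ) / (n.choose r : ℝ)) atTop (nhds (t k r)) := by
  have h1 := Pool.Agent.H120R2.Clique.ratio_tendsto r k
  have h2 : Tendsto (fun n : ℕ => 1 - (Pool.Agent.H120R2.Clique.ex n r k : ℝ) / (n.choose r : ℝ))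
      atTop (nhds (1 - Pool.Agent.H120R2.Clique.turanDensity r k)) := h1.const_sub 1
  have h3 : Tendsto (fun n : ℕ => (T n k r : ℝ) / (n.choose r : ℝ))
      atTop (nhds (1 - Pool.Agent.H120R2.Clique.turanDensity r k)) := by
    refine h2.congr' ?_
    filter_upwards [eventually_ge_atTop r] with n hn
    have : (0 : ℝ) < (n.choose r : ℝ) := by exact_mod_cast Nat.choose_pos hn
    rw [T_eq n k r hk]
    field_simp
  unfold t
  rw [h3.limUnder_eq]
  exact h3

theorem t_nonneg (k r : ℕ) (hk : r ≤ k) : 0 ≤ t k r :=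
  ge_of_tendsto (t_tendsto k r hk) (Eventually.of_forall fun n => by positivity)

theorem tStarK_nonneg (k r : ℕ) (hk : r ≤ k) (hk1 : 1 ≤ k) : 0 ≤ tStarK k r := by
  unfold tStarK
  have h1 := t_nonneg k r hk
  have h2 : (0 : ℝ) ≤ (k : ℝ) - 1 := by
    have : (1 : ℝ) ≤ (k : ℝ) := by exact_mod_cast hk1
    linarith
  positivity

/-- the bound for every `k > L r²` -/
theorem tStarK_le (L r k : ℕ) (hL : 1 ≤ L) (hr : 2 ≤ r) (hk : L * r ^ 2 < k) :
    tStarK k r ≤ Real.exp (3 / L) * (Real.log (L * r) + 5) + 7 := by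
  obtain ⟨α, rfl⟩ : ∃ α, k = α + 1 := ⟨k - 1, by omega⟩
  have hα : L * r ^ 2 ≤ α := by omega
  have hrα : r ≤ α := by nlinarith
  have hαpos : (0 : ℝ) < (α : ℝ) := by
    have : 0 < α := by omega
    exact_mod_cast this
  have hf : (0 : ℝ) < (r.factorial : ℝ) := by exact_mod_cast r.factorial_pos
  have h1 : t (α + 1) r ≤ (r.factorial : ℝ) / (α : ℝ) ^ (r - 1) * Pool.Agent.H15T.bound L r := by
    refine le_of_tendsto (t_tendsto (α + 1) r (by omega)) ?_
    filter_upwards [eventually_ge_atTop r] with n hn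
    have hc : (0 : ℝ) < (n.choose r : ℝ) := by exact_mod_cast Nat.choose_pos hn
    obtain ⟨F, hF1, hF2, hF3⟩ := Pool.Agent.H15T.cover L r α hL hr hα n hn
    have hT : T n (α + 1) r ≤ F.card := Nat.sInf_le ⟨F, ⟨hF1, hF2⟩, rfl⟩
    have hT' : (T n (α + 1) r : ℝ) ≤ (F.card : ℝ) := by exact_mod_cast hT
    rw [div_le_iff₀ hc]
    calc (T n (α + 1) r : ℝ) ≤ (F.card : ℝ) := hT'
      _ ≤ _ := hF3
      _ = _ := by ring
  unfold tStarK
  have h2 : (((α + 1 : ℕ) : ℝ) - 1) = (α : ℝ) := by push_cast; ring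
  rw [h2]
  calc (α : ℝ) ^ (r - 1) / (r.factorial : ℝ) * t (α + 1) r
      ≤ (α : ℝ) ^ (r - 1) / (r.factorial : ℝ) *
        ((r.factorial : ℝ) / (α : ℝ) ^ (r - 1) * Pool.Agent.H15T.bound L r) :=
        mul_le_mul_of_nonneg_left h1 (by positivity)
    _ = Pool.Agent.H15T.bound L r := by field_simp
    _ = _ := rfl

/-- **Theorem.** `t_*(r) ≤ log r + log (log r + 7) + 29` for every `r ≥ 2`; in fact
`t_*(k,r) ≤ exp (3/L) (log (L r) + 5) + 7` for every `k > L r²`. -/
theorem result :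
    (∀ r : ℕ, 2 ≤ r → tStar r ≤ Real.log r + Real.log (Real.log r + 7) + 29) ∧
    (∀ L r k : ℕ, 1 ≤ L → 2 ≤ r → L * r ^ 2 < k →
      tStarK k r ≤ Real.exp (3 / L) * (Real.log (L * r) + 5) + 7) := by
  refine ⟨fun r hr => ?_, fun L r k hL hr hk => tStarK_le L r k hL hr hk⟩
  have hrr : (2 : ℝ) ≤ (r : ℝ) := by exact_mod_cast hr
  have hlog : 0 ≤ Real.log (r : ℝ) := Real.log_nonneg (by linarith)
  set L : ℕ := ⌈Real.log (r : ℝ)⌉₊ + 6 with hL
  have hL6 : (6 : ℝ) ≤ (L : ℝ) := by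
    have : 6 ≤ L := by omega
    exact_mod_cast this
  have hLge : Real.log (r : ℝ) + 6 ≤ (L : ℝ) := by
    rw [hL]; push_cast
    have := Nat.le_ceil (Real.log (r : ℝ))
    linarith
  have hLle : (L : ℝ) ≤ Real.log (r : ℝ) + 7 := by
    rw [hL]; push_cast
    have := Nat.ceil_lt_add_one hlog
    linarith
  have h1 := tStarK_le L r (L * r ^ 2 + 1) (by omega) hr (by omega)
  have hkr : r < L * r ^ 2 + 1 := by nlinarith [show 6 ≤ L by omega]
  have h2 : tStar r ≤ tStarK (L * r ^ 2 + 1) r := by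
    unfold tStar
    refine ciInf_le (f := fun k : {k : ℕ // r < k} => tStarK k r) ?_ ⟨L * r ^ 2 + 1, hkr⟩
    refine ⟨0, ?_⟩
    rintro x ⟨⟨k, hk⟩, rfl⟩
    exact tStarK_nonneg k r hk.le (by omega)
  refine h2.trans (h1.trans ?_)
  have hexp : Real.exp (3 / (L : ℝ)) ≤ 1 + 6 / (L : ℝ) := by
    have hx0 : (0 : ℝ) ≤ 3 / (L : ℝ) := by positivity
    have hx1 : 3 / (L : ℝ) ≤ 1 / 2 := by
      rw [div_le_div_iff₀ (by linarith) (by norm_num)]; linarith
    have h3 : 1 - 3 / (L : ℝ) ≤ Real.exp (-(3 / (L : ℝ))) := Real.one_sub_le_exp_neg _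
    have h4 : Real.exp (3 / (L : ℝ)) * Real.exp (-(3 / (L : ℝ))) = 1 := by
      rw [← Real.exp_add]; simp
    have h5 : Real.exp (3 / (L : ℝ)) * (1 - 3 / (L : ℝ)) ≤ 1 :=
      (mul_le_mul_of_nonneg_left h3 (Real.exp_pos _).le).trans h4.le
    have h6 : (1 : ℝ) ≤ (1 + 6 / (L : ℝ)) * (1 - 3 / (L : ℝ)) := by
      have : 6 / (L : ℝ) = 2 * (3 / (L : ℝ)) := by ring
      rw [this]
      nlinarith
    have h7 : (0 : ℝ) < 1 - 3 / (L : ℝ) := by linarith
    exact le_of_mul_le_mul_right (h5.trans h6) h7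
  have hlogL : Real.log (L : ℝ) ≤ Real.log (Real.log (r : ℝ) + 7) :=
    Real.log_le_log (by linarith) hLle
  have hlogL2 : Real.log (L : ℝ) ≤ (L : ℝ) := by
    have := Real.log_le_sub_one_of_pos (show (0 : ℝ) < (L : ℝ) by linarith)
    linarith
  have hlogL0 : 0 ≤ Real.log (L : ℝ) := Real.log_nonneg (by linarith)
  have hmul : Real.log ((L : ℝ) * r) = Real.log L + Real.log r :=
    Real.log_mul (by linarith) (by linarith)
  rw [hmul]
  have hS : 0 ≤ Real.log (L : ℝ) + Real.log (r : ℝ) + 5 := by linarith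
  have h8 : 6 / (L : ℝ) * (Real.log (L : ℝ) + Real.log (r : ℝ) + 5) ≤ 17 := by
    rw [div_mul_eq_mul_div, div_le_iff₀ (by linarith)]
    nlinarith
  calc Real.exp (3 / (L : ℝ)) * (Real.log (L : ℝ) + Real.log (r : ℝ) + 5) + 7
      ≤ (1 + 6 / (L : ℝ)) * (Real.log (L : ℝ) + Real.log (r : ℝ) + 5) + 7 := by
        have := mul_le_mul_of_nonneg_right hexp hS
        linarith
    _ = Real.log (L : ℝ) + Real.log (r : ℝ) + 12 +
        6 / (L : ℝ) * (Real.log (L : ℝ) + Real.log (r : ℝ) + 5) := by ring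
    _ ≤ _ := by linarith

end Pool.Agent.Results.MP_ea5d3c_co.LogBound
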